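import Pool.Agent.H15.HLS.Targets

/-!
# Homogeneous latin squares of all large orders (MP_3713ea_co), row EQE: the rows (columns, symbols)
that two blocks have in common
-/

set_option autoImplicit false

namespace Pool.Agent.H14.HLS

open Pool.Agent.H51.Homog Pool.Agent.H22.HSQ Pool.Agent.H15.HLS

theorem pf_EQE : T_EQE := by
  intro v W T g x x' c c' r r' h
  rcases r with i | a
  · rcases r' with i' | a'
    · left
      have h1 : (x, i) = (x', i') := Sum.inl.inj h
      exact ⟨rfl, rfl, congrArg Prod.fst h1⟩
    · exact (Sum.inl_ne_inr h).elim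
  · rcases r' with i' | a'
    · exact (Sum.inr_ne_inl h).elim
    · right
      have h1 : a.1 = a'.1 := Sum.inr.inj h
      refine ⟨rfl, rfl, ?_⟩
      rw [← a.2, ← a'.2, h1]

end Pool.Agent.H14.HLS
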