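import Pool.Agent.H15.HLS.Targets

/-!
# Homogeneous latin squares of all large orders (MP_3713ea_co), row INF: if one cell of an
intercalate lies in the big hole then also the opposite one
-/

set_option autoImplicit false

namespace Pool.Agent.H14.HLS

open Pool.Agent.H51.Homog Pool.Agent.H22.HSQ Pool.Agent.H15.HLS

private theorem emb_left {v : ℕ} {W T : Type} {g : T → ZMod v} (x c : ZMod v)
    (r : W ⊕ Fib g c) (h : r.isLeft) : ∃ i : W, (emb x c r : (ZMod v × W) ⊕ T) =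
      Sum.inl (x, i) := by
  rcases r with i | a
  · exact ⟨i, rfl⟩
  · exact absurd h (by simp)

private theorem emb_right {v : ℕ} {W T : Type} {g : T → ZMod v} (x c : ZMod v)
    (r : W ⊕ Fib g c) (t : T) (h : (emb x c r : (ZMod v × W) ⊕ T) = Sum.inr t) : g t = c := by
  rcases r with i | a
  · exact (Sum.inl_ne_inr h).elim
  · have h1 : a.1 = t := Sum.inr.inj h
    rw [← h1]
    exact a.2

set_option linter.unusedVariables false in
theorem pf_INF (hHIN : T_HIN) (hBLK : T_BLK) (hEXB : T_EXB) (hEQE : T_EQE) : T_INF := by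
  classical
  intro v _ W T _ _ g h q A M hG ρ κ ρ' κ' h1 h2 hin
  obtain ⟨hr, hc⟩ := hin
  rcases ρ with ρ | s
  · exact absurd hr (by simp)
  rcases κ with κ | t
  · exact absurd hc (by simp)
  rcases ρ' with ⟨x, i⟩ | s'
  · exfalso
    rcases κ' with ⟨y, j⟩ | t'
    · have e1 : g (M s t) = x + 3 * y := emb_right _ _ _ _ h1
      obtain ⟨i1, e2⟩ := emb_left (x + (g t - x) * q) (g t)
        (A (g t) (Sum.inl i) (Sum.inr ⟨t, rfl⟩)) ((hHIN _ _ h _ (hG.hol (g t))).2 _ _)
      obtain ⟨j1, e3⟩ := emb_left (g s - 3 * y + y) (g s)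
        (A (g s) (Sum.inr ⟨s, rfl⟩) (Sum.inl j)) ((hHIN _ _ h _ (hG.hol (g s))).1 _ _)
      have e4 : (Sum.inl (x + (g t - x) * q, i1) : (ZMod v × W) ⊕ T) =
          Sum.inl (g s - 3 * y + y, j1) := e2.symm.trans ((h2 : _ = _).trans e3)
      have e5 : x + (g t - x) * q = g s - 3 * y + y := congrArg Prod.fst (Sum.inl.inj e4)
      refine hG.rel s t ?_
      rw [e1]
      linear_combination 3 * e5 - (g t - x) * hG.inv
    · obtain ⟨i1, e2⟩ := emb_left (x + (g t' - x) * q) (g t')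
        (A (g t') (Sum.inl i) (Sum.inr ⟨t', rfl⟩)) ((hHIN _ _ h _ (hG.hol (g t'))).2 _ _)
      exact Sum.inl_ne_inr (e2.symm.trans h1)
  · rcases κ' with ⟨y, j⟩ | t'
    · exfalso
      obtain ⟨j1, e3⟩ := emb_left (g s' - 3 * y + y) (g s')
        (A (g s') (Sum.inr ⟨s', rfl⟩) (Sum.inl j)) ((hHIN _ _ h _ (hG.hol (g s'))).1 _ _)
      exact Sum.inl_ne_inr (e3.symm.trans h1)
    · exact ⟨rfl, rfl⟩

end Pool.Agent.H14.HLS
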